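import Mathlib

set_option autoImplicit false

namespace Pool.Agent.H623R3.SW

open Finset Polynomial

section Div

variable {R : Type*} [CommRing R]

/-- cleared numerator of the truncated sum -/
def T (N : ℕ) (x y u : R) : R :=
  ∑ k ∈ range (N + 1), (-1) ^ k * (4 * (k : R) + 1) *
    (∏ j ∈ range k, ((2 * (j : R) + 1) * ((2 * (j : R) + 1) ^ 2 * u ^ 2 - x) *
      ((2 * (j : R) + 1) ^ 2 * u ^ 2 - y))) *
    (∏ j ∈ Ico k N, ((2 * (j : R) + 2) * ((2 * (j : R) + 2) ^ 2 * u ^ 2 - x) *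
      ((2 * (j : R) + 2) ^ 2 * u ^ 2 - y)))

/-- the version with the third parameter -/
def TE (N : ℕ) (x y u z : R) : R :=
  ∑ k ∈ range (N + 1), (-1) ^ k * ((4 * (k : R) + 1) * u - z) *
    (∏ j ∈ range k, (((2 * (j : R) + 1) * u - z) * ((2 * (j : R) + 1) ^ 2 * u ^ 2 - x) *
      ((2 * (j : R) + 1) ^ 2 * u ^ 2 - y))) *
    (∏ j ∈ Ico k N, ((2 * (j : R) + 2) * u * (((2 * (j : R) + 2) * u - z) ^ 2 - x) *
      (((2 * (j : R) + 2) * u - z) ^ 2 - y)))

lemma TE_zero (N : ℕ) (x y u : R) : TE N x y u 0 = u ^ (N + 1) * T N x y u := by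
  unfold TE T
  rw [mul_sum]
  refine sum_congr rfl fun k hk => ?_
  have hk' : k ≤ N := by rw [mem_range] at hk; omega
  have h1 : ∏ j ∈ range k, (((2 * (j : R) + 1) * u - 0) * ((2 * (j : R) + 1) ^ 2 * u ^ 2 - x) *
      ((2 * (j : R) + 1) ^ 2 * u ^ 2 - y)) = u ^ k *
      ∏ j ∈ range k, ((2 * (j : R) + 1) * ((2 * (j : R) + 1) ^ 2 * u ^ 2 - x) *
      ((2 * (j : R) + 1) ^ 2 * u ^ 2 - y)) := by
    rw [show u ^ k = ∏ j ∈ range k, u by simp, ← prod_mul_distrib]
    refine prod_congr rfl fun j _ => ?_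
    ring
  have h2 : ∏ j ∈ Ico k N, ((2 * (j : R) + 2) * u * (((2 * (j : R) + 2) * u - 0) ^ 2 - x) *
      (((2 * (j : R) + 2) * u - 0) ^ 2 - y)) = u ^ (N - k) *
      ∏ j ∈ Ico k N, ((2 * (j : R) + 2) * ((2 * (j : R) + 2) ^ 2 * u ^ 2 - x) *
      ((2 * (j : R) + 2) ^ 2 * u ^ 2 - y)) := by
    rw [show u ^ (N - k) = ∏ j ∈ Ico k N, u by simp, ← prod_mul_distrib]
    refine prod_congr rfl fun j _ => ?_
    ring
  rw [h1, h2]
  have h3 : u ^ (N + 1) = u * u ^ k * u ^ (N - k) := by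
    rw [mul_assoc, ← pow_add, ← pow_succ']
    congr 1
    omega
  rw [h3]
  ring

/-- auxiliary product -/
def PP (u x : R) (k : ℕ) : R := ∏ i ∈ range k, ((2 * (i : R) + 1) ^ 2 * u ^ 2 - x)

lemma PP_split (u x : R) (k m N : ℕ) (hk : k ≤ m) (hm : m ≤ N) :
    ∏ j ∈ Ico k N, (((2 * (j : R) + 2) * u - (2 * (m : R) + 1) * u) ^ 2 - x) =
      PP u x (m - k) * PP u x (N - m) := by
  rw [← prod_Ico_consecutive _ hk hm]
  congr 1
  · unfold PP
    refine prod_nbij' (fun j => m - 1 - j) (fun j => m - 1 - j) ?_ ?_ ?_ ?_ ?_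
    · intro j hj; rw [mem_Ico] at hj; rw [mem_range]; omega
    · intro j hj; rw [mem_range] at hj; rw [mem_Ico]; omega
    · intro j hj; rw [mem_Ico] at hj; omega
    · intro j hj; rw [mem_range] at hj; omega
    · intro j hj
      rw [mem_Ico] at hj
      have : ((m - 1 - j : ℕ) : R) = (m : R) - 1 - j := by
        rw [Nat.sub_sub, Nat.cast_sub (by omega)]
        push_cast
        ring
      rw [this]
      ring
  · unfold PP
    refine prod_nbij' (fun j => j - m) (fun j => j + m) ?_ ?_ ?_ ?_ ?_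
    · intro j hj; rw [mem_Ico] at hj; rw [mem_range]; omega
    · intro j hj; rw [mem_range] at hj; rw [mem_Ico]; omega
    · intro j hj; rw [mem_Ico] at hj; omega
    · intro j hj; rw [mem_range] at hj; omega
    · intro j hj
      rw [mem_Ico] at hj
      have : ((j - m : ℕ) : R) = (j : R) - m := by
        rw [Nat.cast_sub (by omega)]
      rw [this]
      ring

lemma desc_prod (u : R) (k m : ℕ) (hk : k ≤ m) :
    ∏ j ∈ range k, ((2 * (j : R) + 1) * u - (2 * (m : R) + 1) * u) =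
      (-1) ^ k * (2 * u) ^ k * (m.descFactorial k : R) := by
  rw [Nat.descFactorial_eq_prod_range, Nat.cast_prod,
    show (-1 : R) ^ k = ∏ j ∈ range k, (-1 : R) by simp,
    show (2 * u) ^ k = ∏ j ∈ range k, (2 * u) by simp, ← prod_mul_distrib, ← prod_mul_distrib]
  refine prod_congr rfl fun j hj => ?_
  rw [mem_range] at hj
  rw [Nat.cast_sub (by omega)]
  ring

lemma asc_prod (u : R) (k N : ℕ) :
    ∏ j ∈ Ico k N, ((2 * (j : R) + 2) * u) =
      (2 * u) ^ (N - k) * ((∏ j ∈ Ico k N, (j + 1) : ℕ) : R) := by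
  rw [Nat.cast_prod, show (2 * u) ^ (N - k) = ∏ j ∈ Ico k N, (2 * u) by simp, ← prod_mul_distrib]
  refine prod_congr rfl fun j hj => ?_
  push_cast
  ring

lemma comb (k m N : ℕ) (hk : k ≤ m) (hm : m ≤ N) :
    m.descFactorial k * ∏ j ∈ Ico k N, (j + 1) = m.choose k * N.factorial := by
  have h1 : (∏ j ∈ Ico k N, (j + 1)) * k.factorial = N.factorial := by
    have h2 : k.factorial = ∏ j ∈ Ico 0 k, (j + 1) := by
      rw [← prod_range_add_one_eq_factorial, range_eq_Ico]
    have h3 : N.factorial = ∏ j ∈ Ico 0 N, (j + 1) := by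
      rw [← prod_range_add_one_eq_factorial, range_eq_Ico]
    rw [h2, h3, mul_comm, prod_Ico_consecutive _ (by omega) (by omega)]
  rw [Nat.descFactorial_eq_factorial_mul_choose, ← h1]
  ring

lemma TE_root [IsDomain R] [CharZero R] (N : ℕ) (x y u : R) (m : ℕ) (hm : m ≤ N) :
    TE N x y u ((2 * (m : R) + 1) * u) = 0 := by
  unfold TE
  have hsplit : range (N + 1) = range (m + 1) ∪ Ico (m + 1) (N + 1) := by
    ext a
    simp only [mem_union, mem_range, mem_Ico]
    omega
  rw [hsplit, sum_union (by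
    rw [disjoint_left]
    intro a ha hb
    rw [mem_range] at ha
    rw [mem_Ico] at hb
    omega)]
  have hz : ∑ k ∈ Ico (m + 1) (N + 1), (-1) ^ k * ((4 * (k : R) + 1) * u - (2 * (m : R) + 1) * u) *
    (∏ j ∈ range k, (((2 * (j : R) + 1) * u - (2 * (m : R) + 1) * u) *
      ((2 * (j : R) + 1) ^ 2 * u ^ 2 - x) * ((2 * (j : R) + 1) ^ 2 * u ^ 2 - y))) *
    (∏ j ∈ Ico k N, ((2 * (j : R) + 2) * u *
      (((2 * (j : R) + 2) * u - (2 * (m : R) + 1) * u) ^ 2 - x) *
      (((2 * (j : R) + 2) * u - (2 * (m : R) + 1) * u) ^ 2 - y))) = 0 := by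
    refine sum_eq_zero fun k hk => ?_
    rw [mem_Ico] at hk
    rw [prod_eq_zero (i := m) (by rw [mem_range]; omega) (by ring)]
    ring
  rw [hz, add_zero]
  set h : ℕ → R := fun k => (4 * (k : R) - 2 * m) * (m.choose k : R) *
    (PP u x k * PP u x (m - k) * (PP u y k * PP u y (m - k))) with hh
  have hterm : ∀ k ∈ range (m + 1), (-1) ^ k * ((4 * (k : R) + 1) * u - (2 * (m : R) + 1) * u) *
    (∏ j ∈ range k, (((2 * (j : R) + 1) * u - (2 * (m : R) + 1) * u) *
      ((2 * (j : R) + 1) ^ 2 * u ^ 2 - x) * ((2 * (j : R) + 1) ^ 2 * u ^ 2 - y))) *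
    (∏ j ∈ Ico k N, ((2 * (j : R) + 2) * u *
      (((2 * (j : R) + 2) * u - (2 * (m : R) + 1) * u) ^ 2 - x) *
      (((2 * (j : R) + 2) * u - (2 * (m : R) + 1) * u) ^ 2 - y))) =
      (u * (2 * u) ^ N * (N.factorial : R) * (PP u x (N - m) * PP u y (N - m))) * h k := by
    intro k hk
    rw [mem_range] at hk
    rw [prod_mul_distrib, prod_mul_distrib, prod_mul_distrib, prod_mul_distrib,
      PP_split u x k m N (by omega) hm, PP_split u y k m N (by omega) hm,
      desc_prod u k m (by omega), asc_prod u k N]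
    have hc := congrArg (Nat.cast : ℕ → R) (comb k m N (by omega) hm)
    push_cast at hc
    have h3 : (2 * u) ^ N = (2 * u) ^ k * (2 * u) ^ (N - k) := by
      rw [← pow_add]
      congr 1
      omega
    have h4 : (-1 : R) ^ k * (-1) ^ k = 1 := by
      rw [← mul_pow]
      simp
    change (-1) ^ k * ((4 * (k : R) + 1) * u - (2 * (m : R) + 1) * u) *
      ((-1) ^ k * (2 * u) ^ k * (m.descFactorial k : R) * PP u x k * PP u y k) *
      ((2 * u) ^ (N - k) * ((∏ j ∈ Ico k N, (j + 1) : ℕ) : R) *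
      (PP u x (m - k) * PP u x (N - m)) * (PP u y (m - k) * PP u y (N - m))) = _
    rw [h3, hh]
    push_cast
    generalize (∏ j ∈ Ico k N, ((j : R) + 1)) = W at *
    generalize (2 * u) ^ k = a
    generalize (2 * u) ^ (N - k) = b
    generalize (-1 : R) ^ k = s at *
    generalize PP u x k = p1
    generalize PP u y k = p2
    generalize PP u x (m - k) = p3
    generalize PP u y (m - k) = p4
    generalize PP u x (N - m) = p5
    generalize PP u y (N - m) = p6
    linear_combination ((4 * (k : R) - 2 * m) * u * a * b * (m.descFactorial k : R) * W *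
      p1 * p2 * p3 * p4 * p5 * p6) * h4 +
      ((4 * (k : R) - 2 * m) * u * a * b * p1 * p2 * p3 * p4 * p5 * p6) * hc
  rw [sum_congr rfl hterm, ← mul_sum]
  have hsum : ∑ k ∈ range (m + 1), h k = 0 := by
    have h1 : ∑ k ∈ range (m + 1), h (m + 1 - 1 - k) = ∑ k ∈ range (m + 1), h k :=
      sum_range_reflect h (m + 1)
    have h2 : ∑ k ∈ range (m + 1), h (m + 1 - 1 - k) = - ∑ k ∈ range (m + 1), h k := by
      rw [← sum_neg_distrib]
      refine sum_congr rfl fun k hk => ?_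
      rw [mem_range] at hk
      have e1 : m + 1 - 1 - k = m - k := by omega
      have e2 : m - (m - k) = k := by omega
      rw [e1, hh]
      simp only []
      rw [e2, Nat.choose_symm (by omega), Nat.cast_sub (by omega)]
      ring
    have h3 : (2 : R) * ∑ k ∈ range (m + 1), h k = 0 := by
      linear_combination h2 - h1
    rcases mul_eq_zero.mp h3 with h4 | h4
    · exact absurd h4 (by norm_num)
    · exact h4
  rw [hsum, mul_zero]

/-- The polynomial in the third parameter. -/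
noncomputable def TP (N : ℕ) (x y u : R) : R[X] :=
  ∑ k ∈ range (N + 1), (-1) ^ k * ((4 * (k : R[X]) + 1) * C u - X) *
    (∏ j ∈ range k, (((2 * (j : R[X]) + 1) * C u - X) *
      ((2 * (j : R[X]) + 1) ^ 2 * C u ^ 2 - C x) *
      ((2 * (j : R[X]) + 1) ^ 2 * C u ^ 2 - C y))) *
    (∏ j ∈ Ico k N, ((2 * (j : R[X]) + 2) * C u * (((2 * (j : R[X]) + 2) * C u - X) ^ 2 - C x) *
      (((2 * (j : R[X]) + 2) * C u - X) ^ 2 - C y)))

lemma TP_eval (N : ℕ) (x y u z : R) : (TP N x y u).eval z = TE N x y u z := by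
  unfold TP TE
  simp [eval_finsetSum, eval_prod]

lemma T_dvd [IsDomain R] [CharZero R] (N : ℕ) (x y u : R) (hu : u ≠ 0) :
    ∃ V : R, T N x y u = (∏ m ∈ range (N + 1), (2 * (m : R) + 1)) * V := by
  have hinj : Set.InjOn (fun m : ℕ => (2 * (m : R) + 1) * u) (range (N + 1)) := by
    intro a _ b _ hab
    have h1 := mul_right_cancel₀ hu hab
    have h2 : ((2 * a + 1 : ℕ) : R) = ((2 * b + 1 : ℕ) : R) := by
      push_cast
      exact h1
    have h3 : 2 * a + 1 = 2 * b + 1 := by exact_mod_cast h2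
    omega
  have hdvd : (∏ m ∈ range (N + 1), (X - C ((2 * (m : R) + 1) * u))) ∣ TP N x y u := by
    by_cases h0 : TP N x y u = 0
    · rw [h0]; exact dvd_zero _
    have hs := (Multiset.prod_X_sub_C_dvd_iff_le_roots h0
      ((range (N + 1)).val.map (fun m : ℕ => (2 * (m : R) + 1) * u))).mpr (by
        rw [Multiset.le_iff_subset]
        · intro a ha
          rw [Multiset.mem_map] at ha
          obtain ⟨m, hm, rfl⟩ := ha
          rw [mem_roots h0, IsRoot.def, TP_eval]
          apply TE_root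
          have : m ∈ range (N + 1) := hm
          rw [mem_range] at this
          omega
        · exact Multiset.Nodup.map_on (fun a ha b hb hab => hinj (Finset.mem_coe.mpr ha)
            (Finset.mem_coe.mpr hb) hab) (range (N + 1)).nodup)
    rw [Multiset.map_map] at hs
    exact hs
  obtain ⟨Q, hQ⟩ := hdvd
  have h1 := congrArg (eval 0) hQ
  rw [TP_eval, TE_zero, eval_mul, eval_prod] at h1
  have h2 : ∏ j ∈ range (N + 1), eval 0 (X - C ((2 * (j : R) + 1) * u)) =
      (-1) ^ (N + 1) * u ^ (N + 1) * ∏ j ∈ range (N + 1), (2 * (j : R) + 1) := by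
    rw [show (-1 : R) ^ (N + 1) = ∏ j ∈ range (N + 1), (-1 : R) by simp,
      show u ^ (N + 1) = ∏ j ∈ range (N + 1), u by simp, ← prod_mul_distrib, ← prod_mul_distrib]
    refine prod_congr rfl fun j _ => ?_
    simp
    ring
  rw [h2] at h1
  refine ⟨(-1) ^ (N + 1) * eval 0 Q, ?_⟩
  apply mul_left_cancel₀ (pow_ne_zero (N + 1) hu)
  rw [h1]
  ring

end Div

end Pool.Agent.H623R3.SW
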