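import Pool.Agent.H623R3.SW.Nd
import Pool.Agent.H623R3.SW.E

set_option autoImplicit false

namespace Pool.Agent.H623R3.SW

open Finset Polynomial

section Fin1

variable {p : ℕ} [hp : Fact p.Prime]

omit hp in
lemma four_dvd_pow (hp4 : p % 4 = 1) (k : ℕ) : ∃ Q, p ^ k = 4 * Q + 1 := by
  have : p ^ k % 4 = 1 := by
    rw [Nat.pow_mod, hp4, one_pow]
    norm_num
  exact ⟨p ^ k / 4, by omega⟩

/-- The key divisibility for the value at `0` of the interpolating polynomial. -/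
lemma key_poly (hp4 : p % 4 = 1) {N N' : ℕ} (hN : 2 * N' + 1 = p * (2 * N + 1)) :
    ∃ M0 : ℕ, ∀ M ≥ M0, M ≠ 0 → ∀ Q, p ^ M = 4 * Q + 1 →
      ∃ U1 U0 g : ℤ_[p], T N' 0 0 (1 : ℤ_[p]) = DD ℤ_[p] N' * U1 ∧
        T N 0 0 (p : ℤ_[p]) = DD ℤ_[p] N * U0 ∧
        ep ℤ_[p] p N' * U1 * HH p Q 0 0 + U0 * Lp p N' 0 0 =
          ((p : ℤ_[p]) ^ (N + 1) * DD ℤ_[p] N) ^ 4 * g := by
  classical
  have hp0 : (p : ℤ_[p]) ≠ 0 := by exact_mod_cast hp.out.ne_zero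
  obtain ⟨β, hβodd, hβbig, hβcop⟩ : ∃ β : ℕ, β % 2 = 1 ∧ 2 * N + 1 < β ∧ ¬ p ∣ β := by
    refine ⟨p * (2 * N + 1) + 2, ?_, ?_, ?_⟩
    · have : (p * (2 * N + 1)) % 2 = 1 := by
        rw [Nat.mul_mod, show p % 2 = 1 by omega, show (2 * N + 1) % 2 = 1 by omega]
      omega
    · have : 1 * (2 * N + 1) ≤ p * (2 * N + 1) := Nat.mul_le_mul_right _ hp.out.pos
      omega
    · intro h
      have h2 := (Nat.dvd_add_right (dvd_mul_right p (2 * N + 1))).mp h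
      have := (Nat.prime_dvd_prime_iff_eq hp.out Nat.prime_two).mp h2
      omega
  obtain ⟨βi, hβi⟩ : ∃ βi : ℤ_[p], (β : ℤ_[p]) * βi = 1 := by
    have hu : IsUnit (β : ℤ_[p]) := by
      rw [PadicInt.isUnit_iff]
      have h1 : ‖(β : ℤ_[p])‖ = 1 := by
        have h2 := PadicInt.norm_le_one (β : ℤ_[p])
        have h3 : ¬ ‖(β : ℤ_[p])‖ < 1 := by
          intro h
          have h4 : ‖((β : ℤ) : ℤ_[p])‖ < 1 := by simpa using h
          rw [PadicInt.norm_int_lt_one_iff_dvd] at h4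
          exact hβcop (by exact_mod_cast h4)
        exact le_antisymm h2 (not_lt.mp h3)
      exact h1
    obtain ⟨u, hu'⟩ := hu
    exact ⟨((u⁻¹ : ℤ_[p]ˣ) : ℤ_[p]), by rw [← hu']; simp⟩
  have hβ0 : (β : ℤ_[p]) ≠ 0 := by
    intro h; rw [h, zero_mul] at hβi; exact zero_ne_one hβi
  have hβi0 : βi ≠ 0 := by
    intro h; rw [h, mul_zero] at hβi; exact zero_ne_one hβi
  -- the nodes
  set f1 : ℕ → ℤ_[p] := fun m => ((p : ℤ_[p]) * ((2 * m + 1 : ℕ) : ℤ_[p])) ^ 2 with hf1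
  set f2 : ℕ → ℤ_[p] := fun m => ((p : ℤ_[p]) * (((2 * m + 1 : ℕ) : ℤ_[p]) * βi)) ^ 2 with hf2
  have hodd0 : ∀ m : ℕ, ((2 * m + 1 : ℕ) : ℤ_[p]) ≠ 0 := fun m => by
    exact_mod_cast (show (2 * m + 1) ≠ 0 by omega)
  have hinj1 : Set.InjOn f1 (range (N + 1)) := by
    intro a _ b _ hab
    have h1 : (((2 * a + 1 : ℕ) : ℤ_[p])) ^ 2 = (((2 * b + 1 : ℕ) : ℤ_[p])) ^ 2 := by
      simp only [hf1, mul_pow] at hab
      exact mul_left_cancel₀ (pow_ne_zero 2 hp0) hab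
    have h2 : (2 * a + 1) ^ 2 = (2 * b + 1) ^ 2 := by exact_mod_cast h1
    have h3 := Nat.pow_left_injective (n := 2) (by norm_num) h2
    omega
  have hinj2 : Set.InjOn f2 (range (N + 1)) := by
    intro a _ b _ hab
    have h1 : (((2 * a + 1 : ℕ) : ℤ_[p])) ^ 2 = (((2 * b + 1 : ℕ) : ℤ_[p])) ^ 2 := by
      simp only [hf2, mul_pow] at hab
      have := mul_left_cancel₀ (pow_ne_zero 2 hp0) hab
      exact mul_right_cancel₀ (pow_ne_zero 2 hβi0) this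
    have h2 : (2 * a + 1) ^ 2 = (2 * b + 1) ^ 2 := by exact_mod_cast h1
    have h3 := Nat.pow_left_injective (n := 2) (by norm_num) h2
    omega
  set s : Finset ℤ_[p] := (range (N + 1)).image f1 ∪ (range (N + 1)).image f2 with hs
  have hdisj : Disjoint ((range (N + 1)).image f1) ((range (N + 1)).image f2) := by
    rw [disjoint_left]
    intro x hx1 hx2
    rw [mem_image] at hx1 hx2
    obtain ⟨a, ha, rfl⟩ := hx1
    obtain ⟨b, hb, hab⟩ := hx2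
    rw [mem_range] at ha hb
    have h1 : (((2 * b + 1 : ℕ) : ℤ_[p])) ^ 2 = ((β * (2 * a + 1) : ℕ) : ℤ_[p]) ^ 2 := by
      simp only [hf1, hf2, mul_pow] at hab
      have h3 := mul_left_cancel₀ (pow_ne_zero 2 hp0) hab
      push_cast at h3 ⊢
      calc (2 * (b : ℤ_[p]) + 1) ^ 2 = ((2 * (b : ℤ_[p]) + 1) ^ 2 * βi ^ 2) * (β : ℤ_[p]) ^ 2 := by
            have : βi ^ 2 * (β : ℤ_[p]) ^ 2 = 1 := by rw [← mul_pow, mul_comm βi, hβi, one_pow]
            rw [mul_assoc, this, mul_one]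
        _ = _ := by rw [h3]; ring
    have h2 : (2 * b + 1) ^ 2 = (β * (2 * a + 1)) ^ 2 := by exact_mod_cast h1
    have h3 := Nat.pow_left_injective (n := 2) (by norm_num) h2
    have h4 : β * 1 ≤ β * (2 * a + 1) := Nat.mul_le_mul_left β (by omega)
    omega
  have h0s : (0 : ℤ_[p]) ∉ s := by
    rw [hs, mem_union, mem_image, mem_image]
    rintro (⟨a, _, ha⟩ | ⟨a, _, ha⟩)
    · exact pow_ne_zero 2 (mul_ne_zero hp0 (hodd0 a)) ha
    · exact pow_ne_zero 2 (mul_ne_zero hp0 (mul_ne_zero (hodd0 a) hβi0)) ha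
  obtain ⟨M0, hM0⟩ := approx_zero s h0s
  refine ⟨M0, fun M hM hM1 Q hQ => ?_⟩
  obtain ⟨Q', hQ'⟩ := four_dvd_pow (p := p) hp4 (M - 1)
  -- polynomials
  have hCp : (C (p : ℤ_[p]) : ℤ_[p][X]) ≠ 0 := by
    rw [Ne, C_eq_zero]
    exact hp0
  obtain ⟨V1, hV1⟩ := T_dvd (R := ℤ_[p][X]) N' X (C ((β : ℤ_[p]) ^ 2) * X) 1 one_ne_zero
  obtain ⟨V0, hV0⟩ := T_dvd (R := ℤ_[p][X]) N X (C ((β : ℤ_[p]) ^ 2) * X) (C (p : ℤ_[p])) hCp
  change _ = DD ℤ_[p][X] N' * V1 at hV1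
  change _ = DD ℤ_[p][X] N * V0 at hV0
  have ev1 : ∀ A : ℤ_[p], T N' A ((β : ℤ_[p]) ^ 2 * A) 1 = DD ℤ_[p] N' * V1.eval A := by
    intro A
    have h := congrArg (evalRingHom A) hV1
    simp only [T_map, map_mul, DD_map, map_one] at h
    simpa using h
  have ev0 : ∀ A : ℤ_[p], T N A ((β : ℤ_[p]) ^ 2 * A) (p : ℤ_[p]) = DD ℤ_[p] N * V0.eval A := by
    intro A
    have h := congrArg (evalRingHom A) hV0
    simp only [T_map, map_mul, DD_map] at h
    simpa using h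
  set Pol : ℤ_[p][X] := C (ep ℤ_[p] p N') * V1 * HH p Q X (C ((β : ℤ_[p]) ^ 2) * X) +
    V0 * Lp p N' X (C ((β : ℤ_[p]) ^ 2) * X) with hPol
  have evP : ∀ A : ℤ_[p], Pol.eval A = ep ℤ_[p] p N' * V1.eval A *
      HH p Q A ((β : ℤ_[p]) ^ 2 * A) + V0.eval A * Lp p N' A ((β : ℤ_[p]) ^ 2 * A) := by
    intro A
    have h1 := HH_map (evalRingHom A) p Q X (C ((β : ℤ_[p]) ^ 2) * X)
    have h2 := Lp_map (evalRingHom A) p N' X (C ((β : ℤ_[p]) ^ 2) * X)
    simp only [coe_evalRingHom, eval_X, eval_mul, eval_C] at h1 h2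
    rw [hPol, eval_add, eval_mul, eval_mul, eval_mul, eval_C, h1, h2]
  have hnode : ∀ A ∈ s, (p : ℤ_[p]) ^ M ∣ Pol.eval A := by
    intro A hA
    rw [hs, mem_union, mem_image, mem_image] at hA
    rw [evP]
    rcases hA with ⟨m, hm, rfl⟩ | ⟨m, hm, rfl⟩
    · rw [mem_range] at hm
      have e1 : (β : ℤ_[p]) ^ 2 * f1 m =
          ((p : ℤ_[p]) * ((β * (2 * m + 1) : ℕ) : ℤ_[p])) ^ 2 := by
        simp only [hf1]
        push_cast
        ring
      have hb2 : (β * (2 * m + 1)) % 2 = 1 := by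
        rw [Nat.mul_mod, hβodd, show (2 * m + 1) % 2 = 1 by omega]
      have hy : NE (((β * (2 * m + 1) : ℕ) : ℤ_[p]) : ℚ_[p]) := by
        have := NE_odd (K := ℚ_[p]) (β * (2 * m + 1)) hb2
        rwa [PadicInt.coe_natCast]
      have hpy : NE ((p : ℚ_[p]) * (((β * (2 * m + 1) : ℕ) : ℤ_[p]) : ℚ_[p])) := by
        have h3 : (p * (β * (2 * m + 1))) % 2 = 1 := by
          rw [Nat.mul_mod, show p % 2 = 1 by omega, hb2]
        have := NE_odd (K := ℚ_[p]) (p * (β * (2 * m + 1))) h3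
        rw [PadicInt.coe_natCast, ← Nat.cast_mul]
        exact this
      rw [e1]
      refine node_int hp4 hM1 hQ hQ' hN (2 * m + 1) (by omega) (by omega) _ hy hpy _ _ ?_ ?_
      · rw [← e1]; exact ev1 _
      · rw [← e1]; exact ev0 _
    · rw [mem_range] at hm
      have e1 : (β : ℤ_[p]) ^ 2 * f2 m = ((p : ℤ_[p]) * ((2 * m + 1 : ℕ) : ℤ_[p])) ^ 2 := by
        simp only [hf2]
        linear_combination ((p : ℤ_[p]) ^ 2 * ((2 * m + 1 : ℕ) : ℤ_[p]) ^ 2 *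
          ((β : ℤ_[p]) * βi + 1)) * hβi
      have hβK : (β : ℚ_[p]) * (βi : ℚ_[p]) = 1 := by
        have := congrArg (fun z : ℤ_[p] => (z : ℚ_[p])) hβi
        simpa using this
      have hgen : ∀ j l : ℕ, l % 2 = 1 → (2 * (j : ℚ_[p])) ^ 2 - ((l : ℚ_[p]) * βi) ^ 2 ≠ 0 := by
        intro j l hl h
        have h1 : ((2 * j * β : ℕ) : ℚ_[p]) ^ 2 = ((l : ℕ) : ℚ_[p]) ^ 2 := by
          push_cast
          linear_combination (β : ℚ_[p]) ^ 2 * h + (l : ℚ_[p]) ^ 2 *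
            ((β : ℚ_[p]) * (βi : ℚ_[p]) + 1) * hβK
        have h2 : (2 * j * β) ^ 2 = l ^ 2 := by exact_mod_cast h1
        have h3 := Nat.pow_left_injective (n := 2) (by norm_num) h2
        have h4 : (2 * j * β) % 2 = 0 := by
          rw [mul_assoc]
          exact Nat.mul_mod_right 2 _
        omega
      have hy : NE ((((2 * m + 1 : ℕ) : ℤ_[p]) * βi : ℤ_[p]) : ℚ_[p]) := by
        intro j
        have := hgen j (2 * m + 1) (by omega)
        rw [PadicInt.coe_mul, PadicInt.coe_natCast]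
        exact this
      have hpy : NE ((p : ℚ_[p]) * (((((2 * m + 1 : ℕ) : ℤ_[p]) * βi : ℤ_[p])) : ℚ_[p])) := by
        intro j
        have := hgen j (p * (2 * m + 1)) (by
          rw [Nat.mul_mod, show p % 2 = 1 by omega, show (2 * m + 1) % 2 = 1 by omega])
        rw [PadicInt.coe_mul, PadicInt.coe_natCast, ← mul_assoc, ← Nat.cast_mul]
        exact this
      rw [e1, HH_comm, Lp_comm]
      refine node_int hp4 hM1 hQ hQ' hN (2 * m + 1) (by omega) (by omega) _ hy hpy _ _ ?_ ?_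
      · rw [T_comm, ← e1]; exact ev1 _
      · rw [T_comm, ← e1]; exact ev0 _
  have hfin := hM0 M hM Pol hnode
  rw [hs, prod_union hdisj, prod_image hinj1, prod_image hinj2] at hfin
  obtain ⟨g, hg⟩ := hfin
  have hprod1 : ∏ m ∈ range (N + 1), f1 m = ((p : ℤ_[p]) ^ (N + 1) * DD ℤ_[p] N) ^ 2 := by
    simp only [hf1]
    rw [prod_pow, prod_mul_distrib]
    unfold DD
    simp
  have hprod2 : ∏ m ∈ range (N + 1), f2 m =
      ((p : ℤ_[p]) ^ (N + 1) * DD ℤ_[p] N) ^ 2 * (βi ^ (N + 1)) ^ 2 := by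
    simp only [hf2]
    rw [prod_pow, prod_mul_distrib, prod_mul_distrib]
    unfold DD
    simp
    ring
  rw [hprod1, hprod2, evP] at hg
  refine ⟨V1.eval 0, V0.eval 0, (βi ^ (N + 1)) ^ 2 * g, ?_, ?_, ?_⟩
  · have := ev1 0
    rwa [mul_zero] at this
  · have := ev0 0
    rwa [mul_zero] at this
  · rw [mul_zero] at hg
    rw [hg]
    ring

end Fin1

end Pool.Agent.H623R3.SW
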