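import Pool.Agent.H623R3.SW.D3

set_option autoImplicit false

namespace Pool.Agent.H623R3.SW

open Finset Filter Topology

section Gam

/-- The value of Morita's `p`-adic gamma function at a natural number `n`:
`(-1) ^ n` times the product of the `0 < j < n` prime to `p`. -/
def mg (p n : ℕ) : ℤ := (-1) ^ n * ∏ j ∈ (Ioo 0 n).filter (fun j => ¬ p ∣ j), (j : ℤ)

variable {p : ℕ} [hp : Fact p.Prime]

omit hp in
lemma mg_eq (R : Type*) [CommRing R] (n : ℕ) :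
    ((mg p n : ℤ) : R) = (-1) ^ n * ∏ r ∈ range n, (if p ∣ r then (1 : R) else (r : R)) := by
  unfold mg
  push_cast
  congr 1
  rw [prod_filter]
  rcases n with _ | n
  · simp
  · have h1 : range (n + 1) = insert 0 (Ioo 0 (n + 1)) := by
      ext a
      simp only [mem_range, mem_insert, mem_Ioo]
      omega
    rw [h1, prod_insert (by simp)]
    simp only [dvd_zero, if_true, one_mul]
    refine prod_congr rfl fun j _ => ?_
    by_cases h : p ∣ j <;> simp [h]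

lemma per_prod {R : Type*} [CommRing R] (f : ℕ → R) (P : ℕ) (hf : ∀ n, f (n + P) = f n)
    (hu : ∀ n, IsUnit (f n)) (n : ℕ) : ∏ j ∈ range P, f (n + j) = ∏ j ∈ range P, f j := by
  induction n with
  | zero => simp
  | succ n ih =>
    rw [← ih]
    have h := shift_prod (fun j => f (n + j)) P
    simp only [add_zero, hf] at h
    have h2 := (hu n).mul_right_cancel h
    rw [← h2]
    refine prod_congr rfl fun j _ => ?_
    congr 1
    ring

lemma mg_add (hp2 : p ≠ 2) {M : ℕ} (hM : M ≠ 0) (n : ℕ) :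
    ((mg p (n + p ^ M) : ℤ) : ZMod (p ^ M)) = ((mg p n : ℤ) : ZMod (p ^ M)) := by
  rw [mg_eq, mg_eq, prod_range_add]
  have hw := range_wilson (p := p) hM hp2 0 (IsNilpotent.zero)
  simp only [sub_zero] at hw
  have hpd : p ∣ p ^ M := dvd_pow_self _ hM
  have h1 := per_prod (fun r : ℕ => if p ∣ r then (1 : ZMod (p ^ M)) else (r : ZMod (p ^ M)))
    (p ^ M) (by
      intro n
      have h2 : (p ∣ n + p ^ M) ↔ p ∣ n := Nat.dvd_add_left hpd
      have h3 : ((n + p ^ M : ℕ) : ZMod (p ^ M)) = (n : ZMod (p ^ M)) := by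
        rw [Nat.cast_add, ZMod.natCast_self, add_zero]
      simp only [h2, h3]) (by
      intro n
      by_cases h : p ∣ n
      · simp only [h, if_true]; exact isUnit_one
      · simp only [h, if_false]; exact (isUnit_cast_iff hM n).mpr h) n
  rw [h1, hw]
  have hodd : Odd (p ^ M) := (hp.out.odd_of_ne_two hp2).pow
  rw [pow_add, hodd.neg_one_pow]
  ring

lemma mg_congr (hp2 : p ≠ 2) {M : ℕ} {m n : ℕ} (h : m ≡ n [MOD p ^ M]) :
    ((mg p m : ℤ) : ZMod (p ^ M)) = ((mg p n : ℤ) : ZMod (p ^ M)) := by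
  rcases Nat.eq_zero_or_pos M with rfl | hM
  · have : Subsingleton (ZMod (p ^ 0)) := by
      rw [pow_zero]
      infer_instance
    exact Subsingleton.elim _ _
  · have hk : ∀ (k n : ℕ), ((mg p (n + k * p ^ M) : ℤ) : ZMod (p ^ M)) =
        ((mg p n : ℤ) : ZMod (p ^ M)) := by
      intro k
      induction k with
      | zero => intro n; simp
      | succ k ih =>
        intro n
        rw [show n + (k + 1) * p ^ M = (n + k * p ^ M) + p ^ M by ring,
          mg_add hp2 (by omega), ih]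
    rcases le_total m n with hmn | hmn
    · obtain ⟨k, hk'⟩ := (Nat.modEq_iff_dvd' hmn).mp h
      have : n = m + k * p ^ M := by rw [mul_comm]; omega
      rw [this, hk]
    · obtain ⟨k, hk'⟩ := (Nat.modEq_iff_dvd' hmn).mp h.symm
      have : m = n + k * p ^ M := by rw [mul_comm]; omega
      rw [this, hk]

lemma pow_dvd_iff (M : ℕ) (x : ℤ_[p]) :
    (p : ℤ_[p]) ^ M ∣ x ↔ PadicInt.toZModPow M x = 0 := by
  rw [← RingHom.mem_ker, PadicInt.ker_toZModPow, Ideal.mem_span_singleton]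

lemma mg_dvd (hp2 : p ≠ 2) (M m n : ℕ) (h : (p : ℤ_[p]) ^ M ∣ ((m : ℤ_[p]) - n)) :
    (p : ℤ_[p]) ^ M ∣ (((mg p m : ℤ) : ℤ_[p]) - ((mg p n : ℤ) : ℤ_[p])) := by
  rw [pow_dvd_iff, map_sub, map_natCast, map_natCast, sub_eq_zero] at h
  rw [pow_dvd_iff, map_sub, map_intCast, map_intCast, sub_eq_zero]
  exact mg_congr hp2 ((ZMod.natCast_eq_natCast_iff _ _ _).mp h)

lemma norm_le_of_dvd_imp (x y : ℤ_[p]) (h : ∀ M : ℕ, (p : ℤ_[p]) ^ M ∣ y → (p : ℤ_[p]) ^ M ∣ x) :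
    ‖x‖ ≤ ‖y‖ := by
  by_cases hy : y = 0
  · have : x = 0 := by
      by_contra hx
      have h1 := h (x.valuation + 1) (by rw [hy]; exact dvd_zero _)
      rw [← Ideal.mem_span_singleton, ← PadicInt.norm_le_pow_iff_mem_span_pow,
        PadicInt.norm_eq_zpow_neg_valuation hx] at h1
      have hp1 : (1 : ℝ) < p := by exact_mod_cast hp.out.one_lt
      have := (zpow_le_zpow_iff_right₀ hp1).mp h1
      push_cast at this
      omega
    rw [this, hy]
  · have h1 := h y.valuation (by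
      rw [← Ideal.mem_span_singleton, ← PadicInt.norm_le_pow_iff_mem_span_pow,
        PadicInt.norm_eq_zpow_neg_valuation hy])
    rw [← Ideal.mem_span_singleton, ← PadicInt.norm_le_pow_iff_mem_span_pow] at h1
    rw [PadicInt.norm_eq_zpow_neg_valuation hy]
    exact h1

lemma mg_lip (hp2 : p ≠ 2) (m n : ℕ) :
    ‖(((mg p m : ℤ) : ℤ_[p]) - ((mg p n : ℤ) : ℤ_[p]))‖ ≤ ‖((m : ℤ_[p]) - n)‖ :=
  norm_le_of_dvd_imp _ _ fun M h => mg_dvd hp2 M m n h

lemma appr_tendsto (x : ℤ_[p]) :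
    Tendsto (fun k : ℕ => ((x.appr k : ℕ) : ℤ_[p])) atTop (𝓝 x) := by
  rw [tendsto_iff_norm_sub_tendsto_zero]
  have h1 : ∀ k : ℕ, ‖((x.appr k : ℕ) : ℤ_[p]) - x‖ ≤ ((p : ℝ)⁻¹) ^ k := by
    intro k
    have := PadicInt.appr_spec k x
    rw [← PadicInt.norm_le_pow_iff_mem_span_pow] at this
    rw [norm_sub_rev]
    simpa using this
  refine squeeze_zero (fun k => norm_nonneg _) h1 ?_
  apply tendsto_pow_atTop_nhds_zero_of_lt_one
  · positivity
  · have hp1 : (1 : ℝ) < p := by exact_mod_cast hp.out.one_lt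
    exact inv_lt_one_of_one_lt₀ hp1

lemma exists_gamma_value (hp2 : p ≠ 2) (x : ℤ_[p]) :
    ∃ g : ℤ_[p], ∀ n : ℕ, ‖g - ((mg p n : ℤ) : ℤ_[p])‖ ≤ ‖x - n‖ := by
  have hc : CauchySeq (fun k : ℕ => ((mg p (x.appr k) : ℤ) : ℤ_[p])) := by
    have h1 := (appr_tendsto x).cauchySeq
    rw [Metric.cauchySeq_iff'] at h1 ⊢
    intro ε hε
    obtain ⟨N, hN⟩ := h1 ε hε
    refine ⟨N, fun n hn => ?_⟩
    have h2 := hN n hn
    rw [dist_eq_norm] at h2 ⊢
    exact lt_of_le_of_lt (mg_lip hp2 _ _) h2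
  obtain ⟨g, hg⟩ := cauchySeq_tendsto_of_complete hc
  refine ⟨g, fun n => ?_⟩
  have h1 : Tendsto (fun k : ℕ => ‖((mg p (x.appr k) : ℤ) : ℤ_[p]) - ((mg p n : ℤ) : ℤ_[p])‖) atTop
      (𝓝 ‖g - ((mg p n : ℤ) : ℤ_[p])‖) := (hg.sub_const _).norm
  have h2 : Tendsto (fun k : ℕ => ‖((x.appr k : ℕ) : ℤ_[p]) - n‖) atTop (𝓝 ‖x - n‖) :=
    ((appr_tendsto x).sub_const _).norm
  exact le_of_tendsto_of_tendsto h1 h2 (Eventually.of_forall fun k => mg_lip hp2 _ _)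

/-- `G` is Morita's `p`-adic gamma function: it is continuous on `ℤ_[p]` and takes the prescribed
values at the positive integers. -/
def IsMorita (p : ℕ) [Fact p.Prime] (G : ℤ_[p] → ℤ_[p]) : Prop :=
  Continuous G ∧ ∀ n : ℕ, 1 ≤ n →
    G n = (-1) ^ n * ∏ j ∈ (Ioo 0 n).filter (fun j => ¬ p ∣ j), (j : ℤ_[p])

omit hp in
lemma mg_cast (R : Type*) [CommRing R] (n : ℕ) : ((mg p n : ℤ) : R) =
    (-1) ^ n * ∏ j ∈ (Ioo 0 n).filter (fun j => ¬ p ∣ j), (j : R) := by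
  unfold mg
  push_cast
  rfl

theorem exists_morita (hp2 : p ≠ 2) : ∃ G : ℤ_[p] → ℤ_[p], IsMorita p G := by
  choose G hG using exists_gamma_value (p := p) hp2
  refine ⟨G, ?_, ?_⟩
  · have hl : ∀ x y : ℤ_[p], dist (G x) (G y) ≤ 1 * dist x y := by
      intro x y
      rw [one_mul, dist_eq_norm, dist_eq_norm]
      have h1 : ∀ k : ℕ, ‖G x - G y‖ ≤ ‖x - (y.appr k : ℕ)‖ + ‖y - (y.appr k : ℕ)‖ := by
        intro k
        calc ‖G x - G y‖ = ‖(G x - ((mg p (y.appr k) : ℤ) : ℤ_[p])) -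
              (G y - ((mg p (y.appr k) : ℤ) : ℤ_[p]))‖ := by congr 1; ring
          _ ≤ ‖G x - ((mg p (y.appr k) : ℤ) : ℤ_[p])‖ + ‖G y - ((mg p (y.appr k) : ℤ) : ℤ_[p])‖ :=
            norm_sub_le _ _
          _ ≤ _ := add_le_add (hG x _) (hG y _)
      have h2 : Tendsto (fun k : ℕ => ‖x - ((y.appr k : ℕ) : ℤ_[p])‖ +
          ‖y - ((y.appr k : ℕ) : ℤ_[p])‖) atTop (𝓝 (‖x - y‖ + ‖y - y‖)) :=
        ((appr_tendsto y).const_sub x).norm.add ((appr_tendsto y).const_sub y).norm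
      rw [sub_self, norm_zero, add_zero] at h2
      exact ge_of_tendsto h2 (Eventually.of_forall h1)
    exact (LipschitzWith.of_dist_le_mul (K := 1) (by simpa using hl)).continuous
  · intro n _
    have h := hG n n
    rw [sub_self, norm_zero] at h
    have h2 := norm_le_zero_iff.mp h
    rw [sub_eq_zero] at h2
    rw [h2, mg_cast]

lemma appr'_tendsto (x : ℤ_[p]) :
    Tendsto (fun k : ℕ => ((x.appr k + p ^ k : ℕ) : ℤ_[p])) atTop (𝓝 x) := by
  have h1 : Tendsto (fun k : ℕ => (p : ℤ_[p]) ^ k) atTop (𝓝 0) := by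
    apply tendsto_pow_atTop_nhds_zero_of_norm_lt_one
    rw [PadicInt.norm_p]
    have hp1 : (1 : ℝ) < p := by exact_mod_cast hp.out.one_lt
    exact inv_lt_one_of_one_lt₀ hp1
  have h2 := (appr_tendsto x).add h1
  rw [add_zero] at h2
  refine h2.congr fun k => ?_
  push_cast
  rfl

theorem morita_unique {G G' : ℤ_[p] → ℤ_[p]} (h : IsMorita p G) (h' : IsMorita p G') :
    G = G' := by
  funext x
  have h1 := (h.1.tendsto x).comp (appr'_tendsto x)
  have h2 := (h'.1.tendsto x).comp (appr'_tendsto x)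
  refine tendsto_nhds_unique h1 (h2.congr fun k => ?_)
  have hk : 1 ≤ x.appr k + p ^ k := by
    have := Nat.pos_of_ne_zero (pow_ne_zero k hp.out.ne_zero)
    omega
  simp only [Function.comp]
  rw [h.2 _ hk, h'.2 _ hk]

lemma morita_near (hp2 : p ≠ 2) {G : ℤ_[p] → ℤ_[p]} (h : IsMorita p G) (x : ℤ_[p]) (n : ℕ) :
    ‖G x - ((mg p n : ℤ) : ℤ_[p])‖ ≤ ‖x - n‖ := by
  have h1 := (((h.1.tendsto x).comp (appr'_tendsto x)).sub_const ((mg p n : ℤ) : ℤ_[p])).norm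
  have h2 := ((appr'_tendsto x).sub_const (n : ℤ_[p])).norm
  refine le_of_tendsto_of_tendsto h1 h2 (Eventually.of_forall fun k => ?_)
  have hk : 1 ≤ x.appr k + p ^ k := by
    have := Nat.pos_of_ne_zero (pow_ne_zero k hp.out.ne_zero)
    omega
  simp only [Function.comp]
  rw [h.2 _ hk, ← mg_cast]
  exact mg_lip hp2 _ _

lemma dvd_of_norm_le (x y : ℤ_[p]) (h : ‖x‖ ≤ ‖y‖) (M : ℕ) (hy : (p : ℤ_[p]) ^ M ∣ y) :
    (p : ℤ_[p]) ^ M ∣ x := by
  rw [← Ideal.mem_span_singleton, ← PadicInt.norm_le_pow_iff_mem_span_pow] at hy ⊢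
  exact h.trans hy

lemma quarter (hp4 : p % 4 = 1) {G : ℤ_[p] → ℤ_[p]} (h : IsMorita p G) (u : ℤ_[p])
    (hu : 4 * u = 1) {M Q Q' : ℕ} (hM : M ≠ 0) (hQ : p ^ M = 4 * Q + 1)
    (hQ' : p ^ (M - 1) = 4 * Q' + 1) :
    (p : ℤ_[p]) ^ M ∣ (G u) ^ 4 * (∏ t ∈ range (Q + 1), (if p ∣ 4 * t + 1 then (1 : ℤ_[p]) else
      ((4 * t + 1 : ℕ) : ℤ_[p]))) ^ 4 - 1 := by
  have hp2 : p ≠ 2 := by omega
  have h1 := morita_near hp2 h u (3 * Q + 1)
  have h2 : (p : ℤ_[p]) ^ M ∣ u - ((3 * Q + 1 : ℕ) : ℤ_[p]) := by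
    refine ⟨-3 * u, ?_⟩
    have h3 : (p : ℤ_[p]) ^ M = 4 * Q + 1 := by exact_mod_cast congrArg (Nat.cast : ℕ → ℤ_[p]) hQ
    rw [h3]
    push_cast
    linear_combination (3 * (Q : ℤ_[p]) + 1) * hu
  have h3 := dvd_of_norm_le _ _ h1 M h2
  rw [pow_dvd_iff, map_sub, map_intCast, sub_eq_zero] at h3
  rw [pow_dvd_iff, map_sub, map_mul, map_pow, map_pow, map_one, map_prod, h3, mg_eq, mul_pow,
    sub_eq_zero]
  have h4 : ∏ x ∈ range (Q + 1), (PadicInt.toZModPow M) (if p ∣ 4 * x + 1 then (1 : ℤ_[p]) else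
      ((4 * x + 1 : ℕ) : ℤ_[p])) = ∏ t ∈ range (Q + 1), (if p ∣ 4 * t + 1 then
      (1 : ZMod (p ^ M)) else ((4 * t + 1 : ℕ) : ZMod (p ^ M))) := by
    refine prod_congr rfl fun t _ => ?_
    by_cases h : p ∣ 4 * t + 1
    · rw [if_pos h, if_pos h, map_one]
    · rw [if_neg h, if_neg h, map_natCast]
  rw [h4, ← pow_mul, show (3 * Q + 1) * 4 = 2 * (2 * (3 * Q + 1)) by ring, pow_mul, neg_one_sq,
    one_pow, one_mul]
  exact gamma_rel hp4 hM hQ hQ'

end Gam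

end Pool.Agent.H623R3.SW
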