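import Pool.Agent.H623R3.SW.Fin

set_option autoImplicit false

namespace Pool.Agent.H623R3.SW

open Finset Polynomial

section MainS

/-- Swisher's truncated sum `S(m)`, the sum over `0 ≤ k ≤ (m-1)/2` of
`(-1)^k (4k+1) (1/2)_k^5 / k!^5`. -/
noncomputable def swisherSum (m : ℕ) : ℚ :=
  ∑ k ∈ range ((m - 1) / 2 + 1),
    (-1) ^ k * (4 * (k : ℚ) + 1) * ((ascPochhammer ℚ k).eval (1 / 2)) ^ 5 / (k.factorial : ℚ) ^ 5

lemma poch_eq (k : ℕ) : (ascPochhammer ℚ k).eval (1 / 2) / (k.factorial : ℚ) =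
    (k.centralBinom : ℚ) / 4 ^ k := by
  induction k with
  | zero => simp
  | succ k ih =>
    have h1 : ((k : ℚ) + 1) * ((k + 1).centralBinom : ℚ) = 2 * (2 * k + 1) * (k.centralBinom : ℚ) := by
      exact_mod_cast congrArg (Nat.cast : ℕ → ℚ) (Nat.succ_mul_centralBinom_succ k)
    rw [ascPochhammer_succ_eval, Nat.factorial_succ]
    have hk : ((k : ℚ) + 1) ≠ 0 := by positivity
    have hf : (k.factorial : ℚ) ≠ 0 := by positivity
    have h4 : (4 : ℚ) ^ k ≠ 0 := by positivity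
    push_cast
    rw [div_eq_div_iff (by positivity) (by positivity)] at ih ⊢
    rw [pow_succ]
    have : ((k + 1).centralBinom : ℚ) = 2 * (2 * k + 1) * (k.centralBinom : ℚ) / (k + 1) := by
      rw [eq_div_iff hk]; linear_combination h1
    rw [this]
    field_simp
    linear_combination (4 * (2 * (k : ℚ) + 1)) * ih

variable {K : Type*} [Field K] [CharZero K]

lemma prod_cb (k : ℕ) : ∏ j ∈ range k, ((2 * (j : K) + 1) / (2 * (j : K) + 2)) =
    (k.centralBinom : K) / 4 ^ k := by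
  induction k with
  | zero => simp
  | succ k ih =>
    rw [prod_range_succ, ih]
    have h1 : ((k : K) + 1) * ((k + 1).centralBinom : K) = 2 * (2 * k + 1) * (k.centralBinom : K) := by
      exact_mod_cast congrArg (Nat.cast : ℕ → K) (Nat.succ_mul_centralBinom_succ k)
    have hk : ((k : K) + 1) ≠ 0 := by
      exact_mod_cast Nat.succ_ne_zero k
    have h2 : (2 : K) ≠ 0 := by norm_num
    have h22 : (2 * (k : K) + 2) ≠ 0 := by
      have : (2 * (k : K) + 2) = 2 * (k + 1) := by ring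
      rw [this]
      exact mul_ne_zero h2 hk
    have h4 : (4 : K) ^ k ≠ 0 := pow_ne_zero _ (by norm_num)
    rw [div_mul_div_comm, div_eq_div_iff (mul_ne_zero h4 h22) (pow_ne_zero _ (by norm_num)),
      pow_succ]
    linear_combination (-2 * (4 : K) ^ k) * h1

lemma t_cb (k : ℕ) : t k (0 : K) 0 = (-1) ^ k * (4 * (k : K) + 1) *
    ((k.centralBinom : K) / 4 ^ k) ^ 5 := by
  unfold t
  rw [← prod_cb, ← prod_pow]
  congr 1
  refine prod_congr rfl fun j _ => ?_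
  simp only [ne_eq, OfNat.ofNat_ne_zero, not_false_eq_true, zero_pow, sub_zero]
  rw [← div_pow]
  ring

lemma swisher_cast (m : ℕ) : ((swisherSum m : ℚ) : K) = S ((m - 1) / 2) (0 : K) 0 := by
  unfold swisherSum S
  rw [Rat.cast_sum]
  refine sum_congr rfl fun k _ => ?_
  rw [t_cb]
  have h : (-1) ^ k * (4 * (k : ℚ) + 1) * ((ascPochhammer ℚ k).eval (1 / 2)) ^ 5 /
      (k.factorial : ℚ) ^ 5 = (-1) ^ k * (4 * (k : ℚ) + 1) * ((k.centralBinom : ℚ) / 4 ^ k) ^ 5 := by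
    rw [← poch_eq, div_pow]
    ring
  rw [h]
  push_cast
  ring

lemma LL_val {R : Type*} [CommRing R] (N : ℕ) (u : R) :
    LL N 0 0 u = u ^ (4 * N) * (2 ^ N * (N.factorial : R)) ^ 5 := by
  unfold LL
  have h1 : (2 : R) ^ N * (N.factorial : R) = ∏ j ∈ range N, (2 * (j : R) + 2) := by
    rw [← prod_range_add_one_eq_factorial, Nat.cast_prod,
      show (2 : R) ^ N = ∏ j ∈ range N, (2 : R) by simp, ← prod_mul_distrib]
    refine prod_congr rfl fun j _ => ?_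
    push_cast
    ring
  rw [h1, ← prod_pow, pow_mul, show (u ^ 4) ^ N = ∏ j ∈ range N, (u ^ 4) by simp,
    ← prod_mul_distrib]
  refine prod_congr rfl fun j _ => ?_
  ring

lemma DD_val {R : Type*} [CommRing R] (N : ℕ) :
    DD R N * 2 ^ N * (N.factorial : R) = ((2 * N + 1 : ℕ) : R) * (N.centralBinom : R) *
      (N.factorial : R) * (N.factorial : R) := by
  have h1 : (∏ m ∈ range (N + 1), (2 * m + 1)) * (2 ^ N * N.factorial) = (2 * N + 1).factorial := by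
    induction N with
    | zero => simp
    | succ N ih =>
      rw [prod_range_succ, Nat.factorial_succ N, show 2 * (N + 1) + 1 = 2 * N + 1 + 1 + 1 by ring,
        Nat.factorial_succ (2 * N + 1 + 1), Nat.factorial_succ (2 * N + 1), ← ih]
      ring
  have h2 : (2 * N + 1).factorial = (2 * N + 1) * (N.centralBinom * N.factorial * N.factorial) := by
    rw [Nat.factorial_succ]
    congr 1
    rw [Nat.centralBinom_eq_two_mul_choose]
    have := Nat.choose_mul_factorial_mul_factorial (show N ≤ 2 * N by omega)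
    rw [show 2 * N - N = N by omega] at this
    exact this.symm
  have h3 : DD R N = ((∏ m ∈ range (N + 1), (2 * m + 1) : ℕ) : R) := by
    unfold DD
    push_cast
    rfl
  rw [h3, mul_assoc]
  have h4 := congrArg (Nat.cast : ℕ → R) (h1.trans h2)
  push_cast at h4 ⊢
  linear_combination h4

end MainS

section MainT

variable {p : ℕ} [hp : Fact p.Prime]

lemma isUnit_natCast (n : ℕ) (hn : ¬ p ∣ n) : IsUnit (n : ℤ_[p]) := by
  rw [PadicInt.isUnit_iff]
  have h2 := PadicInt.norm_le_one (n : ℤ_[p])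
  have h3 : ¬ ‖(n : ℤ_[p])‖ < 1 := by
    intro h
    have h4 : ‖((n : ℤ) : ℤ_[p])‖ < 1 := by simpa using h
    rw [PadicInt.norm_int_lt_one_iff_dvd] at h4
    exact hn (by exact_mod_cast h4)
  exact le_antisymm h2 (not_lt.mp h3)

lemma Lp_unit (hp2 : p ≠ 2) (N : ℕ) : IsUnit (Lp p N (0 : ℤ_[p]) 0) := by
  unfold Lp
  induction N with
  | zero => simp
  | succ N ih =>
    rw [prod_range_succ]
    refine ih.mul ?_
    split_ifs with h
    · exact isUnit_one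
    · have h1 : IsUnit (((2 * (N + 1) : ℕ) : ℤ_[p])) := by
        apply isUnit_natCast
        intro h2
        rcases (Nat.Prime.dvd_mul hp.out).mp h2 with h3 | h3
        · exact hp2 ((Nat.prime_dvd_prime_iff_eq hp.out Nat.prime_two).mp h3)
        · exact h h3
      have h2 : (2 * (N : ℤ_[p]) + 2) = ((2 * (N + 1) : ℕ) : ℤ_[p]) := by push_cast; ring
      rw [h2, sub_zero]
      exact (h1.mul (h1.pow 2)).mul (h1.pow 2)

omit hp in
lemma HH_zero {R : Type*} [CommRing R] (Q : ℕ) : HH p Q (0 : R) 0 =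
    (∏ t ∈ range (Q + 1), (if p ∣ 4 * t + 1 then (1 : R) else ((4 * t + 1 : ℕ) : R))) ^ 4 := by
  unfold HH
  rw [← prod_pow]
  refine prod_congr rfl fun j _ => ?_
  split_ifs
  · simp
  · push_cast
    ring

lemma S_int (u : ℤ_[p]) (hu : 4 * u = 1) (N : ℕ) :
    ∃ s : ℤ_[p], S N (0 : ℚ_[p]) 0 = (s : ℚ_[p]) := by
  have hu' : (u : ℚ_[p]) = 1 / 4 := by
    have h := congrArg (fun z : ℤ_[p] => (z : ℚ_[p])) hu
    have h2 : (4 : ℚ_[p]) * (u : ℚ_[p]) = 1 := by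
      have h4 : ((4 : ℤ_[p]) : ℚ_[p]) = 4 := by
        have := PadicInt.coe_natCast (p := p) 4
        exact_mod_cast this
      simpa [h4] using h
    rw [eq_div_iff (by norm_num)]
    linear_combination h2
  refine ⟨∑ k ∈ range (N + 1), (-1) ^ k * (4 * (k : ℤ_[p]) + 1) *
    ((k.centralBinom : ℤ_[p]) * u ^ k) ^ 5, ?_⟩
  unfold S
  change _ = PadicInt.Coe.ringHom _
  rw [map_sum]
  refine sum_congr rfl fun k _ => ?_
  rw [t_cb]
  simp only [map_mul, map_pow, map_add, map_neg, map_one, map_natCast, map_ofNat]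
  change _ = (-1) ^ k * (4 * (k : ℚ_[p]) + 1) * ((k.centralBinom : ℚ_[p]) * (u : ℚ_[p]) ^ k) ^ 5
  rw [hu', one_div_pow]
  ring

/-- The Dwork-type congruence for every odd index. -/
theorem main_odd (hp4 : p % 4 = 1) {G : ℤ_[p] → ℤ_[p]} (hG : IsMorita p G) (u : ℤ_[p])
    (hu : 4 * u = 1) (n : ℕ) (hn : n % 2 = 1) :
    ∃ z : ℤ_[p], ((swisherSum (p * n) : ℚ) : ℚ_[p]) +
      (p : ℚ_[p]) * ((G u : ℤ_[p]) : ℚ_[p]) ^ 4 * ((swisherSum n : ℚ) : ℚ_[p]) =
      ((p : ℚ_[p]) * (n : ℚ_[p])) ^ 5 * (z : ℚ_[p]) := by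
  have hp2 : p ≠ 2 := by omega
  obtain ⟨N, hNn⟩ : ∃ N, n = 2 * N + 1 := ⟨n / 2, by omega⟩
  have hodd : (p * n) % 2 = 1 := by
    rw [Nat.mul_mod, show p % 2 = 1 by omega, hn]
  obtain ⟨N', hN'⟩ : ∃ N', p * n = 2 * N' + 1 := ⟨p * n / 2, by omega⟩
  have hN : 2 * N' + 1 = p * (2 * N + 1) := by rw [← hNn, hN']
  obtain ⟨M0, hM0⟩ := key_poly (p := p) hp4 hN
  have hp0 : (p : ℤ_[p]) ≠ 0 := by exact_mod_cast hp.out.ne_zero
  have hn0 : (n : ℤ_[p]) ≠ 0 := by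
    have : n ≠ 0 := by omega
    exact_mod_cast this
  obtain ⟨k, hk⟩ := dvd_pow_of_ne_zero (((p : ℤ_[p]) * (n : ℤ_[p])) ^ 5) (pow_ne_zero 5 (mul_ne_zero hp0 hn0))
  set M := max (max M0 k) 1 with hMdef
  have hM1 : M ≠ 0 := by
    have : 1 ≤ M := le_max_right _ _
    omega
  have hMM0 : M0 ≤ M := le_trans (le_max_left _ _) (le_max_left _ _)
  have hMk : k ≤ M := le_trans (le_max_right _ _) (le_max_left _ _)
  obtain ⟨Q, hQ⟩ := four_dvd_pow (p := p) hp4 M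
  obtain ⟨Q', hQ'⟩ := four_dvd_pow (p := p) hp4 (M - 1)
  obtain ⟨U1, U0, g, hT1, hT0, hW⟩ := hM0 M hMM0 hM1 Q hQ
  have hgam := quarter hp4 hG u hu hM1 hQ hQ'
  rw [← HH_zero] at hgam
  obtain ⟨w, hw⟩ := hgam
  obtain ⟨v, hv⟩ := dvd_pow_mono hk hMk
  obtain ⟨s1, hs1⟩ := S_int (p := p) u hu N'
  -- the unit
  have hL1u := Lp_unit (p := p) hp2 N'
  have h2u : IsUnit ((2 : ℤ_[p]) ^ (2 * N)) := by
    have : IsUnit (((2 : ℕ) : ℤ_[p])) := isUnit_natCast 2 (fun h => hp2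
      ((Nat.prime_dvd_prime_iff_eq hp.out Nat.prime_two).mp h))
    exact (by simpa using this : IsUnit (2 : ℤ_[p])).pow _
  obtain ⟨c, hc⟩ := (h2u.pow 5).mul hL1u
  set φ : ℤ_[p] →+* ℚ_[p] := PadicInt.Coe.ringHom with hφ
  have hφc : ∀ z : ℤ_[p], φ z = (z : ℚ_[p]) := fun z => rfl
  -- transport to the field
  have hne : ∀ j : ℕ, (2 * (j : ℚ_[p]) + 2) ^ 2 - (0 : ℚ_[p]) ^ 2 ≠ 0 := by
    intro j
    have : ((2 * j + 2 : ℕ) : ℚ_[p]) ≠ 0 := Nat.cast_ne_zero.mpr (by omega)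
    push_cast at this
    rw [zero_pow (by norm_num), sub_zero]
    exact pow_ne_zero 2 this
  have k1 := S_T N' (0 : ℚ_[p]) 0 1 hne hne
  have k0 := S_T N (0 : ℚ_[p]) 0 (p : ℚ_[p]) hne hne
  simp only [mul_zero, ne_eq, OfNat.ofNat_ne_zero, not_false_eq_true, zero_pow] at k1 k0
  have f1 := congrArg φ hT1
  have f0 := congrArg φ hT0
  have fW := congrArg φ hW
  rw [T_map, map_zero, map_one, map_mul, DD_map] at f1
  rw [T_map, map_zero, map_natCast, map_mul, DD_map] at f0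
  rw [map_add, map_mul, map_mul, map_mul, map_mul, map_pow, map_mul, map_pow, map_natCast, DD_map,
    ep_map, HH_map, Lp_map, map_zero] at fW
  rw [f1, LL_split hp.out hN, DD_split hp.out (by omega) hN, LL_val] at k1
  rw [f0, LL_val] at k0
  have hDD := DD_val (R := ℚ_[p]) N
  rw [← hNn] at hDD
  have hfac : ((N.factorial : ℕ) : ℚ_[p]) ≠ 0 := Nat.cast_ne_zero.mpr (Nat.factorial_ne_zero N)
  have hDD' : DD ℚ_[p] N * 2 ^ N = (n : ℚ_[p]) * (N.centralBinom : ℚ_[p]) *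
      (N.factorial : ℚ_[p]) := mul_right_cancel₀ hfac hDD
  have hpK : (p : ℚ_[p]) ≠ 0 := Nat.cast_ne_zero.mpr hp.out.ne_zero
  have hc' := congrArg φ hc
  rw [map_mul, map_pow, map_pow, Lp_map, map_zero, map_ofNat] at hc'
  have hcinv : φ (c : ℤ_[p]) * φ ((c⁻¹ : ℤ_[p]ˣ) : ℤ_[p]) = 1 := by
    rw [← map_mul, Units.mul_inv, map_one]
  have fgam := congrArg φ hw
  rw [map_sub, map_mul, map_pow, map_mul, map_pow, map_natCast, map_one, HH_map, map_zero] at fgam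
  have fv := congrArg φ hv
  rw [map_pow, map_natCast, map_mul, map_pow, map_mul, map_natCast, map_natCast] at fv
  rw [swisher_cast, swisher_cast, show (p * n - 1) / 2 = N' by omega,
    show (n - 1) / 2 = N by omega]
  rw [← hφc (G u)]
  have hsS : S N' (0 : ℚ_[p]) 0 = φ s1 := hs1
  -- key: S1 * H + p * S0
  have key : S N' (0 : ℚ_[p]) 0 * HH p Q 0 0 + (p : ℚ_[p]) * S N (0 : ℚ_[p]) 0 =
      ((p : ℚ_[p]) * n) ^ 5 * ((N.centralBinom : ℚ_[p]) ^ 5 * φ g *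
        φ ((c⁻¹ : ℤ_[p]ˣ) : ℤ_[p])) := by
    generalize S N' (0 : ℚ_[p]) 0 = S1 at *
    generalize S N (0 : ℚ_[p]) 0 = S0 at *
    generalize HH p Q (0 : ℚ_[p]) 0 = H at *
    generalize Lp p N' (0 : ℚ_[p]) 0 = L1 at *
    generalize ep ℚ_[p] p N' = e at *
    generalize DD ℚ_[p] N = D at *
    generalize (N.factorial : ℚ_[p]) = F at *
    generalize (N.centralBinom : ℚ_[p]) = B at *
    generalize φ U1 = V1 at *
    generalize φ U0 = V0 at *
    generalize φ g = g' at *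
    generalize φ (c : ℤ_[p]) = cc at *
    generalize φ ((c⁻¹ : ℤ_[p]ˣ) : ℤ_[p]) = ci at *
    generalize (n : ℚ_[p]) = n' at *
    have hF5 : F ^ 5 * (p : ℚ_[p]) ^ (4 * N) * (2 : ℚ_[p]) ^ N ≠ 0 :=
      mul_ne_zero (mul_ne_zero (pow_ne_zero 5 hfac) (pow_ne_zero _ hpK))
        (pow_ne_zero _ (by norm_num))
    -- S1 * L0 * L1 = p * D * e * V1
    have q1 : S1 * ((p : ℚ_[p]) ^ (4 * N) * (2 ^ N * F) ^ 5) * L1 = (p : ℚ_[p]) * D * e * V1 := by
      apply mul_left_cancel₀ (pow_ne_zero N hpK)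
      rw [pow_succ] at k1
      linear_combination k1
    have q2 : (S1 * H + (p : ℚ_[p]) * S0) * ((p : ℚ_[p]) ^ (4 * N) * (2 ^ N * F) ^ 5) * L1 =
        (p : ℚ_[p]) * D * (((p : ℚ_[p]) ^ (N + 1) * D) ^ 4 * g') := by
      linear_combination H * q1 + (p : ℚ_[p]) * L1 * k0 + (p : ℚ_[p]) * D * fW
    have q3 : (D * 2 ^ N) ^ 5 = (n' * B * F) ^ 5 := by rw [hDD']
    have e1 : ((p : ℚ_[p]) ^ (N + 1)) ^ 4 = (p : ℚ_[p]) ^ (4 * N) * (p : ℚ_[p]) ^ 4 := by
      rw [← pow_mul, ← pow_add]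
      congr 1
      ring
    have e2 : ((2 : ℚ_[p]) ^ (2 * N)) = 2 ^ N * 2 ^ N := by
      rw [← pow_add]
      congr 1
      ring
    rw [e2] at hc'
    generalize (2 : ℚ_[p]) ^ N = T2 at *
    generalize hPP : (p : ℚ_[p]) ^ (4 * N) = P4 at *
    have hne2 : F ^ 5 * P4 ≠ 0 := by
      intro h0
      apply hF5
      rw [h0, zero_mul]
    apply mul_left_cancel₀ hne2
    have q4 : (S1 * H + (p : ℚ_[p]) * S0) * (P4 * F ^ 5) * cc =
        (p : ℚ_[p]) ^ 5 * P4 * (n' * B * F) ^ 5 * g' := by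
      rw [hc']
      have : ((p : ℚ_[p]) ^ (N + 1) * D) ^ 4 = P4 * (p : ℚ_[p]) ^ 4 * D ^ 4 := by
        rw [mul_pow, e1]
      rw [this] at q2
      linear_combination T2 ^ 5 * q2 + (p : ℚ_[p]) ^ 5 * P4 * g' * q3
    linear_combination ci * q4 - (S1 * H + (p : ℚ_[p]) * S0) * (P4 * F ^ 5) * hcinv
  -- conclusion
  refine ⟨(G u) ^ 4 * ((N.centralBinom : ℤ_[p]) ^ 5 * g * ((c⁻¹ : ℤ_[p]ˣ) : ℤ_[p])) - s1 * v * w, ?_⟩
  rw [← hφc, map_sub, map_mul, map_mul, map_mul, map_mul, map_mul, map_pow, map_pow, map_natCast]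
  rw [fv] at fgam
  linear_combination (φ (G u)) ^ 4 * key - S N' (0 : ℚ_[p]) 0 * fgam -
    (((p : ℚ_[p]) * n) ^ 5 * φ v * φ w) * hsS

end MainT

end Pool.Agent.H623R3.SW
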