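import Pool.Agent.H623R3.SW.N
import Pool.Agent.H623R3.SW.Gm

set_option autoImplicit false

namespace Pool.Agent.H623R3.SW

open Finset

section NodeInt

variable {p : ℕ} [hp : Fact p.Prime]

omit hp in
lemma Bc_Zc {M : ℕ} (b : ZMod (p ^ M)) (c a : ℕ) : Bc (FF p M b) c a = Zc p c a (b ^ 2) := by
  unfold Bc Zc FF
  refine prod_congr rfl fun r _ => ?_
  have h1 : ((p : ℤ) ∣ (r : ℤ)) ↔ p ∣ r := Int.natCast_dvd_natCast
  by_cases h : p ∣ r
  · rw [if_pos h, if_pos (h1.mpr h)]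
  · rw [if_neg h, if_neg (fun h5 => h (h1.mp h5))]
    push_cast
    ring

omit hp in
lemma Phi_HH {M Q : ℕ} (b : ZMod (p ^ M)) (a : ℕ) (ha : p ∣ a) :
    Phi (FF p M b) Q a = HH p Q ((a : ZMod (p ^ M)) ^ 2) (b ^ 2) := by
  rw [Phi_eq b a (by exact_mod_cast ha)]
  unfold HH
  refine prod_congr rfl fun j _ => ?_
  split_ifs
  · rfl
  · push_cast
    ring

lemma Bc_unit {M : ℕ} (hM : M ≠ 0) (b : ZMod (p ^ M)) (hb : IsNilpotent b) (c a : ℕ) :
    IsUnit (Bc (FF p M b) c a) := by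
  unfold Bc
  induction (range a).filter (fun r => r % 4 = c ∧ r ≠ 0) using Finset.induction_on with
  | empty => simp
  | insert x s hx ih =>
    rw [prod_insert hx]
    exact (FF_unit hM b hb _).mul ih

lemma node_int {M Q Q' : ℕ} (hp4 : p % 4 = 1) (hM : M ≠ 0) (hQ : p ^ M = 4 * Q + 1)
    (hQ' : p ^ (M - 1) = 4 * Q' + 1) {N N' : ℕ} (hN : 2 * N' + 1 = p * (2 * N + 1))
    (i : ℕ) (hi2 : i % 2 = 1) (hi : i ≤ 2 * N + 1) (y : ℤ_[p])
    (hy : NE (y : ℚ_[p])) (hpy : NE ((p : ℚ_[p]) * y)) (U1 U0 : ℤ_[p])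
    (hU1 : T N' (((p : ℤ_[p]) * i) ^ 2) (((p : ℤ_[p]) * y) ^ 2) 1 = DD ℤ_[p] N' * U1)
    (hU0 : T N (((p : ℤ_[p]) * i) ^ 2) (((p : ℤ_[p]) * y) ^ 2) (p : ℤ_[p]) = DD ℤ_[p] N * U0) :
    (p : ℤ_[p]) ^ M ∣ ep ℤ_[p] p N' * U1 * HH p Q (((p : ℤ_[p]) * i) ^ 2) (((p : ℤ_[p]) * y) ^ 2) +
      U0 * Lp p N' (((p : ℤ_[p]) * i) ^ 2) (((p : ℤ_[p]) * y) ^ 2) := by
  set φ : ℤ_[p] →+* ℚ_[p] := PadicInt.Coe.ringHom with hφ
  have hφinj : Function.Injective φ := fun a b h => PadicInt.ext h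
  have hφy : φ y = (y : ℚ_[p]) := rfl
  have h1 := congrArg φ hU1
  have h0 := congrArg φ hU0
  rw [T_map, map_mul, DD_map, map_pow, map_pow, map_mul, map_mul, map_natCast, map_natCast, map_one,
    hφy] at h1
  rw [T_map, map_mul, DD_map, map_pow, map_pow, map_mul, map_mul, map_natCast, map_natCast,
    hφy] at h0
  have hnf := node_field (K := ℚ_[p]) hp.out hp4 hN i hi2 hi (y : ℚ_[p]) hy hpy (φ U1) (φ U0) h1 h0
  set a1 : ℤ_[p] := ((p : ℤ_[p]) * i) ^ 2 with ha1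
  set b1 : ℤ_[p] := ((p : ℤ_[p]) * y) ^ 2 with hb1
  have hφa : φ a1 = ((p : ℚ_[p]) * i) ^ 2 := by
    rw [ha1, map_pow, map_mul, map_natCast, map_natCast]
  have hφb : φ b1 = ((p : ℚ_[p]) * (y : ℚ_[p])) ^ 2 := by
    rw [hb1, map_pow, map_mul, map_natCast, hφy]
  rw [← hφa, ← hφb, ← ep_map φ, ← Zc_map φ, ← Zc_map φ, ← Lp_map φ] at hnf
  simp only [← map_mul] at hnf
  set b : ZMod (p ^ M) := PadicInt.toZModPow M ((p : ℤ_[p]) * y) with hb
  have hbn : IsNilpotent b := by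
    refine ⟨M, ?_⟩
    rw [hb, ← map_pow, mul_pow, map_mul, map_pow, map_natCast]
    have : ((p : ZMod (p ^ M))) ^ M = 0 := by
      rw [← Nat.cast_pow, ZMod.natCast_self]
    rw [this, zero_mul]
  have hrel := node_rel hp4 hM hQ hQ' b hbn (p * i) (dvd_mul_right _ _)
  have hψa : PadicInt.toZModPow M a1 = (((p * i : ℕ) : ZMod (p ^ M))) ^ 2 := by
    rw [ha1, map_pow, map_mul, map_natCast, map_natCast]
    push_cast
    rfl
  have hψb : PadicInt.toZModPow M b1 = b ^ 2 := by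
    rw [hb1, map_pow]
  have hpi4 : (p * i) % 4 = i % 4 := by
    rw [Nat.mul_mod, hp4, one_mul, Nat.mod_mod]
  rw [hpi4, Phi_HH b (p * i) (dvd_mul_right _ _), ← hψa] at hrel
  have hu0 := Bc_unit hM b hbn 0 (p * i)
  have hu2 := Bc_unit hM b hbn 2 (p * i)
  rw [Bc_Zc, ← hψb, ← Zc_map] at hu0 hu2
  rw [Bc_Zc, Bc_Zc, ← hψb, ← Zc_map, ← Zc_map, ← HH_map] at hrel
  rw [pow_dvd_iff]
  generalize Zc p 0 (p * i) b1 = Z0 at *
  generalize Zc p 2 (p * i) b1 = Z2 at *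
  generalize HH p Q a1 b1 = H at *
  generalize Lp p N' a1 b1 = L at *
  generalize ep ℤ_[p] p N' = e at *
  have hi4 : i % 4 = 1 ∨ i % 4 = 3 := by omega
  rcases hi4 with h4 | h4
  · have k1 := hφinj (hnf.1 h4)
    have k2 := hrel.1 h4
    apply hu0.mul_left_cancel
    rw [mul_zero, ← map_mul]
    have e1 : Z0 * (e * U1 * H + U0 * L) = U0 * L * (H * Z2 + Z0) := by
      linear_combination H * k1
    rw [e1, map_mul, map_add, map_mul _ H, k2]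
    ring
  · have k1 := hφinj (hnf.2 h4)
    have k2 := hrel.2 h4
    apply hu2.mul_left_cancel
    rw [mul_zero, ← map_mul]
    have e1 : Z2 * (e * U1 * H + U0 * L) = U0 * L * (H * Z0 + Z2) := by
      linear_combination H * k1
    rw [e1, map_mul, map_add, map_mul _ H, k2]
    ring

end NodeInt

end Pool.Agent.H623R3.SW
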